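import Pool.Agent.helper213_IG.RF7
import Mathlib.Algebra.Free
import Mathlib.Algebra.Group.WithOne.Basic

set_option autoImplicit false

/-!
# The free idempotent-generated semigroup `IG(E(P_n))` is residually finite for every `n`
-/

namespace Pool.Agent.Results.MP_e3ace9_al.ResiduallyFinite

/-- A relation on the `2n` points `[n] ∪ [n]'`: the point `(false, i)` is `i` (upper row) and
`(true, i)` is `i'` (lower row). -/
abbrev Rl (n : ℕ) : Type := Bool × Fin n → Bool × Fin n → Prop

/-- The points of `α` placed in rows `0` and `1` of the three row picture. -/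
def upperPt {n : ℕ} (p : Bool × Fin n) : Fin 3 × Fin n := (if p.1 = true then 1 else 0, p.2)

/-- The points of `β` placed in rows `1` and `2` of the three row picture. -/
def lowerPt {n : ℕ} (p : Bool × Fin n) : Fin 3 × Fin n := (if p.1 = true then 2 else 1, p.2)

/-- The points of the product placed in the outer rows `0` and `2`. -/
def outerPt {n : ℕ} (p : Bool × Fin n) : Fin 3 × Fin n := (if p.1 = true then 2 else 0, p.2)

/-- Adjacency in the combined three row graph of `α` (on rows `0,1`) and `β` (on rows `1,2`). -/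
def Adj {n : ℕ} (α β : Rl n) (x y : Fin 3 × Fin n) : Prop :=
  (∃ p q, α p q ∧ x = upperPt p ∧ y = upperPt q) ∨ (∃ p q, β p q ∧ x = lowerPt p ∧ y = lowerPt q)

/-- The product in the partition monoid: two outer points are related when they are connected in
the combined graph. -/
def pmul {n : ℕ} (α β : Rl n) : Rl n := fun p q => Relation.EqvGen (Adj α β) (outerPt p) (outerPt q)

/-- The idempotents of the partition monoid `P_n`: the set partitions (equivalence relations) `α` of
`[n] ∪ [n]'` with `α α = α`. -/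
def EP (n : ℕ) : Type := {α : Rl n // Equivalence α ∧ pmul α α = α}

/-- `(e, f)` is a basic pair: `ef` or `fe` is one of `e`, `f`. -/
def BasicPair {n : ℕ} (e f : EP n) : Prop :=
  pmul e.1 f.1 = e.1 ∨ pmul e.1 f.1 = f.1 ∨ pmul f.1 e.1 = e.1 ∨ pmul f.1 e.1 = f.1

/-- The defining relations `x_e x_f = x_{ef}` of `IG(E(P_n))`, for basic pairs `(e, f)`. -/
inductive DefRel (n : ℕ) : FreeSemigroup (EP n) → FreeSemigroup (EP n) → Prop
  | mk (e f g : EP n) (hb : BasicPair e f) (hg : pmul e.1 f.1 = g.1) :
      DefRel n (FreeSemigroup.of e * FreeSemigroup.of f) (FreeSemigroup.of g)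

/-- The free idempotent-generated semigroup `IG(E(P_n))`. -/
def IGP (n : ℕ) : Type := (conGen (DefRel n)).Quotient

instance (n : ℕ) : Semigroup (IGP n) := inferInstanceAs (Semigroup (conGen (DefRel n)).Quotient)

/-- A semigroup is residually finite: distinct elements are separated by a homomorphism to a finite
semigroup. -/
def ResFinite (S : Type) [Semigroup S] : Prop :=
  ∀ s t : S, s ≠ t → ∃ (T : Type) (_ : Semigroup T) (_ : Finite T) (φ : S →ₙ* T), φ s ≠ φ t

section Bridge

open Pool.Agent.H213

variable {n : ℕ}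

theorem pmul_eq (α β : Rl n) : pmul α β = PM.mulr α β := by
  have h : Adj α β = PM.gen α β := by
    funext x y
    rfl
  funext p q
  unfold pmul PM.mulr
  rw [h]
  rfl

/-- the idempotent of `PM n` given by an element of `EP n` -/
def toId (e : EP n) : Idem (PM n) := ⟨⟨e.1, e.2.1⟩, PM.ext (by
  rw [PM.mul_r]
  exact (pmul_eq _ _).symm.trans e.2.2)⟩

theorem toId_r (e : EP n) : (toId e : PM n).r = e.1 := rfl

theorem toId_mul_r (e f : EP n) : ((toId e : PM n) * (toId f : PM n)).r = pmul e.1 f.1 := by
  rw [PM.mul_r, pmul_eq]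
  rfl

/-- the inverse -/
def ofId (e : Idem (PM n)) : EP n := ⟨(e : PM n).r, (e : PM n).eqv, by
  rw [pmul_eq, ← PM.mul_r]
  exact congrArg PM.r e.2⟩

theorem ofId_toId (e : EP n) : ofId (toId e) = e := rfl

theorem toId_ofId (e : Idem (PM n)) : toId (ofId e) = e := rfl

theorem mul_toId_iff (e f g : EP n) : (toId e : PM n) * (toId f : PM n) = toId g ↔ pmul e.1 f.1 = g.1 := by
  constructor
  · intro h
    have := congrArg PM.r h
    rwa [toId_mul_r] at this
  · intro h
    apply PM.ext
    rw [toId_mul_r]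
    exact h

theorem basic_iff (e f : EP n) : Basic (toId e : PM n) (toId f : PM n) ↔ BasicPair e f := by
  unfold Basic BasicPair
  rw [mul_toId_iff, mul_toId_iff, mul_toId_iff, mul_toId_iff]

/-- the canonical map from words to the monoid `IG (PM n)` -/
def wmap : FreeSemigroup (EP n) →ₙ* IG (PM n) := FreeSemigroup.lift (fun e => io (toId e))

theorem conGen_le_ker : conGen (DefRel n) ≤ Con.ker (wmap (n := n)) := by
  rw [Con.conGen_le]
  intro x y h
  cases h with
  | mk e f g hb hg =>
    rw [Con.ker_rel]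
    rw [map_mul]
    unfold wmap
    rw [FreeSemigroup.lift_of, FreeSemigroup.lift_of, FreeSemigroup.lift_of]
    exact io_mul ((basic_iff e f).2 hb) ((mul_toId_iff e f g).2 hg)

/-- the canonical map `IG(E(P_n)) → IG (PM n)` -/
def fwd : IGP n →ₙ* IG (PM n) where
  toFun := fun x => Quotient.lift (s := (conGen (DefRel n)).toSetoid) (fun w => wmap w)
    (fun a b h => conGen_le_ker h) x
  map_mul' := by
    intro x y
    induction x using Quotient.inductionOn
    induction y using Quotient.inductionOn
    exact map_mul wmap _ _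

/-- class of a word -/
def cl (w : FreeSemigroup (EP n)) : IGP n := Quotient.mk (conGen (DefRel n)).toSetoid w

theorem cl_surj (x : IGP n) : ∃ w, cl w = x := Quotient.exists_rep x

theorem fwd_cl (w : FreeSemigroup (EP n)) : fwd (cl w) = wmap w := rfl

/-- generator of `IGP n` -/
def gn (e : EP n) : IGP n := cl (FreeSemigroup.of e)

theorem gn_mul (e f g : EP n) (hb : BasicPair e f) (hg : pmul e.1 f.1 = g.1) : gn e * gn f = gn g :=
  Quotient.sound (s := (conGen (DefRel n)).toSetoid) (ConGen.Rel.of _ _ (DefRel.mk e f g hb hg))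

/-- the map back -/
noncomputable def bwd : IG (PM n) →* WithOne (IGP n) :=
  IG.lift (fun e => ((gn (ofId e) : IGP n) : WithOne (IGP n))) (by
    intro e f g hb hg
    rw [← WithOne.coe_mul]
    congr 1
    exact gn_mul _ _ _ ((basic_iff _ _).1 hb) ((mul_toId_iff _ _ _).1 hg))

theorem bwd_wmap (w : FreeSemigroup (EP n)) : bwd (wmap w) = ((cl w : IGP n) : WithOne (IGP n)) := by
  induction w using FreeSemigroup.recOnMul with
  | ih1 e =>
    unfold wmap bwd
    rw [FreeSemigroup.lift_of, IG.lift_io]
    rfl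
  | ih2 e w h1 h2 =>
    rw [map_mul, map_mul, h1, h2]
    rfl

theorem fwd_injective : Function.Injective (fwd (n := n)) := by
  intro x y h
  obtain ⟨a, rfl⟩ := cl_surj x
  obtain ⟨b, rfl⟩ := cl_surj y
  rw [fwd_cl, fwd_cl] at h
  have := congrArg bwd h
  rw [bwd_wmap, bwd_wmap] at this
  exact WithOne.coe_injective this

theorem wmap_eq (w : FreeSemigroup (EP n)) : ∃ v : Wd n, v ≠ [] ∧ wmap w = mkw v := by
  induction w using FreeSemigroup.recOnMul with
  | ih1 e =>
    refine ⟨[toId e], by simp, ?_⟩
    unfold wmap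
    rw [FreeSemigroup.lift_of]
    rfl
  | ih2 e w h1 h2 =>
    obtain ⟨v1, n1, e1⟩ := h1
    obtain ⟨v2, n2, e2⟩ := h2
    refine ⟨v1 ++ v2, by simp [n1], ?_⟩
    rw [map_mul, e1, e2, mkw_append]

end Bridge

/-- **Theorem.** For every `n` the free idempotent-generated semigroup `IG(E(P_n))` over the biordered
set of idempotents of the partition monoid `P_n` is residually finite. -/
theorem result (n : ℕ) : ResFinite (IGP n) := by
  intro s t hst
  have h1 : fwd s ≠ fwd t := fun h => hst (fwd_injective h)
  obtain ⟨a, rfl⟩ := cl_surj s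
  obtain ⟨b, rfl⟩ := cl_surj t
  rw [fwd_cl, fwd_cl] at h1
  obtain ⟨u, _, hu⟩ := wmap_eq a
  obtain ⟨v, hv, hv'⟩ := wmap_eq b
  rw [hu, hv'] at h1
  obtain ⟨T, iT, fT, τ, hτ⟩ := Pool.Agent.H213.word_sep hv h1
  refine ⟨T, inferInstance, fT, (τ : Pool.Agent.H213.IG (Pool.Agent.H213.PM n) →ₙ* T).comp fwd, ?_⟩
  intro h
  apply hτ
  rw [← hu, ← hv']
  exact h

end Pool.Agent.Results.MP_e3ace9_al.ResiduallyFinite
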